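import Mathlib
import Pool.Agent.TH885.NW.Final
import Pool.Agent.TH885.NW.Exp2
import Pool.Agent.TH885.NW.Prop
import Pool.Agent.TH603.Sur.Uni

set_option autoImplicit false

/-!
# Uniform fat points: `AH₂(d)` for ALL degrees `d`, for a positive proportion of ALL multiplicities

Let `r ≥ 10` not be a perfect square and
`bad r = (min (√r - 3) (2 / 3 + 9 / (4 √r)) + min (√r - 3) (2 / 3 + 1 / (4 √r))) / 2 < 1`.
For a general set `Y` of `r` points of the complex projective plane the scheme `m Y` is `AH₂(d)` for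
every `d`, for all multiplicities `m` outside a set of upper density at most `bad r`. The upper
density is at most `ε` for all non-square `r ≥ r0(ε)`. For `r = 10` the bound `bad 10` is less than
`0.163`.
-/

namespace Pool.Agent.Results.MP_8707bd_ag.AllDegreesPositiveProportion

open MvPolynomial

/-- The ideal `I_Y ^ (m)` of the points `(Y i 0 : Y i 1 : 1)` with multiplicity `m`. -/
noncomputable def fat {r : ℕ} (Y : Fin r → Fin 2 → ℂ) (m : ℕ) : Ideal (MvPolynomial (Fin 3) ℂ) :=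
  ⨅ i : Fin r, (Ideal.span ({X 0 - C (Y i 0) * X 2, X 1 - C (Y i 1) * X 2} :
    Set (MvPolynomial (Fin 3) ℂ))) ^ m

/-- The Hilbert function `H_{R/J}(d) = dim R_d - dim [J]_d`. -/
noncomputable def hilb (J : Ideal (MvPolynomial (Fin 3) ℂ)) (d : ℕ) : ℕ :=
  Module.finrank ℂ ↥(homogeneousSubmodule (Fin 3) ℂ d) -
    Module.finrank ℂ ↥(homogeneousSubmodule (Fin 3) ℂ d ⊓ Submodule.restrictScalars ℂ J)

/-- For `r` general points `Y` (one nonempty open set for all degrees) the scheme `m Y` is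
`AH₂(d)` for every degree `d`. -/
def AllDegrees (r m : ℕ) : Prop :=
  ∃ F : MvPolynomial (Fin r × Fin 2) ℂ, F ≠ 0 ∧ ∀ Y : Fin r → Fin 2 → ℂ,
    MvPolynomial.eval (fun ij : Fin r × Fin 2 => Y ij.1 ij.2) F ≠ 0 →
    ∀ d : ℕ, hilb (fat Y m) d = min ((d + 2).choose 2) (r * (m + 1).choose 2)

/-- The bound for the proportion of the other multiplicities. -/
noncomputable def bad (r : ℕ) : ℝ :=
  (min (Real.sqrt r - 3) (2 / 3 + 9 / (4 * Real.sqrt r)) +
    min (Real.sqrt r - 3) (2 / 3 + 1 / (4 * Real.sqrt r))) / 2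

theorem allDegrees_of {r m : ℕ} (h : ∃ F : MvPolynomial (Fin r × Fin 2) ℚ, F ≠ 0 ∧
    ∀ P : Fin r → Fin 2 → ℂ,
      MvPolynomial.aeval (fun ij : Fin r × Fin 2 => P ij.1 ij.2) F ≠ 0 →
      ∀ d : ℕ, H932R3.ExpDim ℂ (fun _ => m) P d) : AllDegrees r m := by
  obtain ⟨F, hF, hF'⟩ := h
  refine ⟨F.map (algebraMap ℚ ℂ), H932R3.map_ne_zero_of hF, fun Y hY d => ?_⟩
  rw [MvPolynomial.eval_map] at hY
  have h2 := hF' Y hY d
  unfold Pool.Agent.H932R3.ExpDim at h2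
  rw [Finset.sum_const, Finset.card_univ, Fintype.card_fin, smul_eq_mul] at h2
  unfold hilb fat
  rw [h2, TH603.Sur.finrank_forms]
  omega

theorem count {r : ℕ} (hr : ¬ IsSquare r) {A B : ℝ} (hAB : 0 ≤ A + B)
    (h : ∀ m : ℕ, 0 < m → ¬ AllDegrees r m →
      ∃ d : ℕ, -A ≤ 2 * (d : ℝ) + 3 - Real.sqrt r * (2 * m + 1) ∧
        2 * (d : ℝ) + 3 - Real.sqrt r * (2 * m + 1) ≤ B) {δ : ℝ} (hδ : 0 < δ) :
    ∃ M0 : ℝ, ∀ M : ℕ, M0 ≤ M →
      (Set.ncard {m : ℕ | 0 < m ∧ m < M ∧ ¬ AllDegrees r m} : ℝ) ≤ ((A + B) / 2 + δ) * M := by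
  classical
  have hirr : Irrational (Real.sqrt r) := irrational_sqrt_natCast_iff.2 hr
  obtain ⟨M0, hM0⟩ := TH885.NW.count_sharp hirr ((Real.sqrt r - 3) / 2) (A / 2) (B / 2)
    (by linarith) hδ
  refine ⟨M0, fun M hM => ?_⟩
  have hset : {m : ℕ | 0 < m ∧ m < M ∧ ¬ AllDegrees r m} =
      ↑((Finset.range M).filter fun m => 0 < m ∧ ¬ AllDegrees r m) := by
    ext m
    simp only [Set.mem_ofPred_eq, Finset.coe_filter, Finset.mem_range]
    tauto
  rw [hset, Set.ncard_coe_finset]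
  have h1 := hM0 M hM ((Finset.range M).filter fun m => 0 < m ∧ ¬ AllDegrees r m)
    (fun m hm => Finset.mem_range.1 (Finset.mem_filter.1 hm).1) (fun m hm => by
      obtain ⟨d, hd1, hd2⟩ := h m (Finset.mem_filter.1 hm).2.1 (Finset.mem_filter.1 hm).2.2
      refine ⟨d, ?_, ?_⟩
      · push_cast
        linarith
      · push_cast
        linarith)
  rw [show (A + B) / 2 + δ = A / 2 + B / 2 + δ by ring]
  exact h1

theorem bad_ten : bad 10 < 0.163 := by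
  have h1 : Real.sqrt ((10 : ℕ) : ℝ) < 3.163 := by
    rw [Real.sqrt_lt' (by norm_num)]
    norm_num
  unfold bad
  have h2 := min_le_left (Real.sqrt ((10 : ℕ) : ℝ) - 3) (2 / 3 + 9 / (4 * Real.sqrt ((10 : ℕ) : ℝ)))
  have h3 := min_le_left (Real.sqrt ((10 : ℕ) : ℝ) - 3) (2 / 3 + 1 / (4 * Real.sqrt ((10 : ℕ) : ℝ)))
  linarith

theorem result :
    (∀ r : ℕ, 10 ≤ r → ¬ IsSquare r → ∀ δ : ℝ, 0 < δ → ∃ M0 : ℝ, ∀ M : ℕ, M0 ≤ M →
      (Set.ncard {m : ℕ | 0 < m ∧ m < M ∧ ¬ AllDegrees r m} : ℝ) ≤ (bad r + δ) * M) ∧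
    (∀ r : ℕ, 10 ≤ r → bad r < 1) ∧ bad 10 < 0.163 ∧
    (∀ ε : ℝ, 0 < ε → ∃ r0 : ℕ, ∀ r : ℕ, r0 ≤ r → ¬ IsSquare r → ∃ M0 : ℝ, ∀ M : ℕ, M0 ≤ M →
      (Set.ncard {m : ℕ | 0 < m ∧ m < M ∧ ¬ AllDegrees r m} : ℝ) ≤ ε * M) := by
  refine ⟨fun r hr hsq δ hδ => ?_, fun r hr => ?_, bad_ten, fun ε hε => ?_⟩
  · obtain ⟨h1, h2, h3⟩ := TH885.NW.win_len hr
    refine count hsq (A := TH885.NW.loW r) (B := TH885.NW.upW r) (by linarith) ?_ hδ
    intro m hm hbad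
    by_contra hcon
    push Not at hcon
    apply hbad
    obtain ⟨F, hF, hF'⟩ := TH885.NW.exp_uni2 (L := ℂ) hr hm
    refine allDegrees_of ⟨F, hF, fun P hP d => hF' P hP d ?_⟩
    rcases le_or_gt (-TH885.NW.loW r) (2 * (d : ℝ) + 3 - Real.sqrt r * (2 * m + 1)) with h4 | h4
    · exact Or.inl (hcon d h4)
    · exact Or.inr h4
  · obtain ⟨h1, h2, h3⟩ := TH885.NW.win_len hr
    unfold TH885.NW.loW TH885.NW.upW at h3
    unfold bad
    linarith
  · obtain ⟨N, hN⟩ := TH885.NW.all_uni (show 0 < ε / 2 by positivity)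
    refine ⟨N, fun r hr hsq => ?_⟩
    have key : ∀ m : ℕ, 0 < m → ¬ AllDegrees r m →
        ∃ d : ℕ, -(ε / 2) ≤ 2 * (d : ℝ) + 3 - Real.sqrt r * (2 * m + 1) ∧
          2 * (d : ℝ) + 3 - Real.sqrt r * (2 * m + 1) ≤ ε / 2 := by
      intro m hm hbad
      by_contra hcon
      push Not at hcon
      apply hbad
      obtain ⟨F, hF, hF'⟩ := hN r hr m hm (L := ℂ)
      refine allDegrees_of ⟨F, hF, fun P hP d => hF' P hP d ?_⟩
      rw [le_abs]
      rcases le_or_gt (-(ε / 2)) (2 * (d : ℝ) + 3 - Real.sqrt r * (2 * m + 1)) with h4 | h4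
      · exact Or.inl (hcon d h4).le
      · right; linarith
    obtain ⟨M0, hM0⟩ := count hsq (by linarith) key (show 0 < ε / 2 by positivity)
    refine ⟨M0, fun M hM => ?_⟩
    have h1 := hM0 M hM
    rwa [show (ε / 2 + ε / 2) / 2 + ε / 2 = ε by ring] at h1

end Pool.Agent.Results.MP_8707bd_ag.AllDegreesPositiveProportion
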