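import Mathlib
import Pool.Agent.TH387.EX.Core
import Pool.Agent.TH641.NW.End2

set_option autoImplicit false

/-!
# The equivalence of Q1 for every number `r ≥ 10` of points: all multiplicities, all degrees but one

Let `r ≥ 10` and `m ≥ 1`. There is a degree `d₀` such that, for a general set `Y` of `r` points of the
complex projective plane, `m Y` is `AH₂(d)` and the equivalence of Q1 holds for every `d ≠ d₀`, and also
for `d = d₀` unless `√r (2 m + 1) - a ≤ 2 d₀ + 3 ≤ √r (2 m + 1) + b` with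
`a = min (√r - 3) (2 / 3 + 9 / (4 √r))` and `b = min (√r - 3) (2 / 3 + 1 / (4 √r))`. For every `d`, no form
exceptional for `Y` divides all elements of `[I_Y ^ (m)]_d ≠ 0`, and the equivalence of Q1 holds at `d`
if and only if `m Y` is `AH₂(d)`.
-/

namespace Pool.Agent.Results.MP_8707bd_ag.EquivalenceEveryDegreeButOne

open MvPolynomial Pool.Agent.TH387.EX

theorem result : ∀ r : ℕ, 10 ≤ r → ∀ m : ℕ, 1 ≤ m → ∃ d₀ : ℕ,
    ∃ Φ : MvPolynomial (Fin r × Fin 2) ℂ, Φ ≠ 0 ∧ ∀ Y : Fin r → Fin 2 → ℂ,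
      MvPolynomial.eval (fun ij : Fin r × Fin 2 => Y ij.1 ij.2) Φ ≠ 0 → ∀ d : ℕ,
        (part (fat Y m) d ≠ ⊥ → ∀ F, IsExceptional Y F → ∃ G ∈ part (fat Y m) d, ¬ F ∣ G) ∧
        (Equivalence Y m d ↔ IsAH Y m d) ∧
        ((d ≠ d₀ ∨
          2 * (d : ℝ) + 3 < √(r : ℝ) * (2 * m + 1) - min (√(r : ℝ) - 3) (2 / 3 + 9 / (4 * √(r : ℝ))) ∨
          √(r : ℝ) * (2 * m + 1) + min (√(r : ℝ) - 3) (2 / 3 + 1 / (4 * √(r : ℝ))) < 2 * (d : ℝ) + 3) →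
        IsAH Y m d ∧ Equivalence Y m d) := by
  intro r hr m hm
  obtain ⟨F1, hF1, hF1'⟩ := TH641.NW.expDim_all_but_one (L := ℂ) hr hm
  obtain ⟨F2, hF2, hF2'⟩ := TH641.NW.expDim_uni_win2 (L := ℂ) hr hm
  obtain ⟨Φ, hΦ, hΦ'⟩ := core hr (m := m) (S := {d : ℕ | d ≠ TH641.NW.dcrit r m ∨
    2 * (d : ℝ) + 3 < √(r : ℝ) * (2 * m + 1) - min (√(r : ℝ) - 3) (2 / 3 + 9 / (4 * √(r : ℝ))) ∨
    √(r : ℝ) * (2 * m + 1) + min (√(r : ℝ) - 3) (2 / 3 + 1 / (4 * √(r : ℝ))) < 2 * (d : ℝ) + 3})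
    ⟨F1 * F2, mul_ne_zero hF1 hF2, fun P hP d hd => by
      rw [map_mul] at hP
      rcases hd with hd | hd | hd
      · exact hF1' P (left_ne_zero_of_mul hP) d hd
      · exact hF2' P (right_ne_zero_of_mul hP) d (Or.inl (by linarith))
      · exact hF2' P (right_ne_zero_of_mul hP) d (Or.inr (by linarith))⟩
  refine ⟨TH641.NW.dcrit r m, Φ, hΦ, fun Y hY d => ?_⟩
  obtain ⟨h1, h2, h3⟩ := hΦ' Y hY
  exact ⟨h3 d, h2 d, fun hd => h1 d hd⟩

end Pool.Agent.Results.MP_8707bd_ag.EquivalenceEveryDegreeButOne
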