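import Mathlib
import Pool.Agent.TH387.EX.Core
import Pool.Agent.TH760.EN.Asm
import Pool.Agent.TH864.SX.Final13
import Pool.Agent.TH469.SX.TwentyOne

set_option autoImplicit false

/-!
# The equivalence of Q1 for every number `r ≥ 37` of points, and for `r = 13, 21`

Let `r ≥ 37`, or `r = 13`, or `r = 21`, and `m ≥ 1`. For a general set `Y` of `r` points of the complex
projective plane and EVERY degree `d`, the scheme `m Y` is `AH₂(d)`, no form exceptional for `Y`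
divides all elements of `[I_Y ^ (m)]_d` when this space is not zero, and the equivalence of Q1 holds.
-/

namespace Pool.Agent.Results.MP_8707bd_ag.EquivalenceFromThirtySeven

open MvPolynomial Pool.Agent.TH387.EX

theorem result : ∀ r : ℕ, (37 ≤ r ∨ r = 13 ∨ r = 21) → ∀ m : ℕ, 1 ≤ m →
    ∃ Φ : MvPolynomial (Fin r × Fin 2) ℂ, Φ ≠ 0 ∧ ∀ Y : Fin r → Fin 2 → ℂ,
      MvPolynomial.eval (fun ij : Fin r × Fin 2 => Y ij.1 ij.2) Φ ≠ 0 → ∀ d : ℕ,
        IsAH Y m d ∧ Equivalence Y m d ∧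
          (part (fat Y m) d ≠ ⊥ → ∀ F, IsExceptional Y F → ∃ G ∈ part (fat Y m) d, ¬ F ∣ G) := by
  intro r hr m hm
  have hr10 : 10 ≤ r := by omega
  have h : ∃ F : MvPolynomial (Fin r × Fin 2) ℚ, F ≠ 0 ∧ ∀ P : Fin r → Fin 2 → ℂ,
      MvPolynomial.aeval (fun ij : Fin r × Fin 2 => P ij.1 ij.2) F ≠ 0 →
      ∀ d ∈ (Set.univ : Set ℕ), Pool.Agent.H932R3.ExpDim ℂ (fun _ => m) P d := by
    rcases hr with hr | rfl | rfl
    · obtain ⟨F, hF, hF'⟩ := TH760.EN.expDim37 (L := ℂ) hr hm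
      exact ⟨F, hF, fun P hP d _ => hF' P hP d⟩
    · obtain ⟨F, hF, hF'⟩ := TH864.SX.uniform13 m
      exact ⟨F, hF, fun P hP d _ => hF' P hP d⟩
    · obtain ⟨F, hF, hF'⟩ := TH469.SX.twentyone m
      exact ⟨F, hF, fun P hP d _ => hF' P hP d⟩
  obtain ⟨Φ, hΦ, hΦ'⟩ := core hr10 h
  refine ⟨Φ, hΦ, fun Y hY d => ?_⟩
  obtain ⟨h1, _, h3⟩ := hΦ' Y hY
  exact ⟨(h1 d (Set.mem_univ d)).1, (h1 d (Set.mem_univ d)).2, h3 d⟩

end Pool.Agent.Results.MP_8707bd_ag.EquivalenceFromThirtySeven
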